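import Pool.Agent.Helper97.Ku.GoalsG

/-! Packet CLS: formulas without existential function quantifiers are `Π¹₁`. -/

set_option autoImplicit false

namespace Pool.Agent.Helper97.Ku.PkCLS

universe u w

open Pool.Agent.Helper97.Ku

section

variable {Ω : Type u} [LinearOrder Ω] {L : Type w} [CompleteBooleanAlgebra L]

theorem fn_nonempty (G : Grd Ω) : Nonempty (FN Ω L) := by
  refine ⟨⟨fun _ j => bo (j = G.c0), fun i => ?_, fun i j k h => ?_⟩⟩
  · rw [eq_top_iff]
    refine le_trans ?_ (le_iSup (fun j => (bo (j = G.c0) : L)) G.c0)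
    simp [bo]
  · by_cases hj : j = G.c0
    · have hk : ¬ (k = G.c0) := fun hk => h (hj.trans hk.symm)
      simp [bo, hk]
    · simp [bo, hj]

omit [LinearOrder Ω] in
theorem eqAt_comm (x y : FN Ω L) (i : Ω) : x.eqAt y i = y.eqAt x i := by
  unfold FN.eqAt
  exact iSup_congr fun j => inf_comm _ _

theorem eqAt_inf_le (x y : FN Ω L) (i j : Ω) : x.eqAt y i ⊓ x.v i j ≤ y.v i j := by
  unfold FN.eqAt
  rw [iSup_inf_eq]
  refine iSup_le fun k => ?_
  by_cases hk : k = j
  · subst hk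
    exact le_trans inf_le_left inf_le_right
  · have h := x.fn i k j hk
    calc x.v i k ⊓ y.v i k ⊓ x.v i j ≤ x.v i k ⊓ x.v i j := inf_le_inf_right _ inf_le_left
      _ = ⊥ := h
      _ ≤ y.v i j := bot_le

theorem eqAt_inf_compl_le (x y : FN Ω L) (i j : Ω) : x.eqAt y i ⊓ (x.v i j)ᶜ ≤ (y.v i j)ᶜ := by
  rw [le_compl_iff_disjoint_right, disjoint_iff_inf_le]
  have h : x.eqAt y i ⊓ y.v i j ≤ x.v i j := by
    rw [eqAt_comm]
    exact eqAt_inf_le y x i j
  calc x.eqAt y i ⊓ (x.v i j)ᶜ ⊓ y.v i j = (x.eqAt y i ⊓ y.v i j) ⊓ (x.v i j)ᶜ := by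
        rw [inf_right_comm]
    _ ≤ x.v i j ⊓ (x.v i j)ᶜ := inf_le_inf_right _ h
    _ = ⊥ := inf_compl_self _
    _ ≤ ⊥ := le_rfl

theorem const (G : Grd Ω) (b : L) : Pi11 (fun _ : ℕ → FN Ω L => b) := by
  refine ⟨fun _ _ => b, ?_, fun e => ?_⟩
  · intro h e
    refine le_trans ?_ (le_iSup _ G.c0)
    exact le_iInf fun h' => le_iInf fun e' => by
      rw [le_himp_iff]
      exact inf_le_left
  · have := fn_nonempty (L := L) G
    rw [iInf_const]

theorem ofOpen (G : Grd Ω) (A : (ℕ → FN Ω L) → L) (k : ℕ) (i0 : Ω)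
    (hA : ∀ e e' : ℕ → FN Ω L, (e k).eqAt (e' k) i0 ⊓ A e ≤ A e') : Pi11 A := by
  refine ⟨fun _ e => A e, ?_, fun e => ?_⟩
  · intro h e
    obtain ⟨α, hα⟩ := G.nomax i0
    refine le_trans ?_ (le_iSup _ α)
    refine le_iInf fun h' => le_iInf fun e' => ?_
    rw [le_himp_iff]
    refine le_trans ?_ (hA e e')
    refine le_inf ?_ inf_le_left
    refine le_trans inf_le_right (le_trans inf_le_right ?_)
    refine le_trans (iInf_le _ k) ?_
    unfold FN.eqv
    exact le_trans (iInf_le _ i0) (iInf_le _ hα)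
  · have := fn_nonempty (L := L) G
    rw [iInf_const]

end

theorem atom : G_ATOM.{u, w} := by
  intro Ω _ L _ G i
  refine ⟨const G, fun f a b => ⟨?_, ?_⟩⟩
  · refine ofOpen G _ f (a.ev (M0 G L) i) ?_
    intro e e'
    exact eqAt_inf_le _ _ _ _
  · refine ofOpen G _ f (a.ev (M0 G L) i) ?_
    intro e e'
    exact eqAt_inf_compl_le _ _ _ _

theorem cls (hPI : G_PI.{u, u}) (hPIE : G_PIE.{u}) : G_CLS.{u} := by
  intro Ω _ L _ G φ
  obtain ⟨hand, hor, hall, hallF⟩ := hPI Ω L G
  have hex := hPIE Ω L G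
  induction φ with
  | lt a b =>
    intro i
    exact ⟨fun _ => const G ((M0 G L).lt (a.ev (M0 G L) i) (b.ev (M0 G L) i)),
      fun _ => const G ((M0 G L).lt (a.ev (M0 G L) i) (b.ev (M0 G L) i))ᶜ⟩
  | eq a b =>
    intro i
    exact ⟨fun _ => const G ((M0 G L).eq (a.ev (M0 G L) i) (b.ev (M0 G L) i)),
      fun _ => const G ((M0 G L).eq (a.ev (M0 G L) i) (b.ev (M0 G L) i))ᶜ⟩
  | om a =>
    intro i
    exact ⟨fun _ => const G ((M0 G L).om (a.ev (M0 G L) i)),
      fun _ => const G ((M0 G L).om (a.ev (M0 G L) i))ᶜ⟩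
  | ap f a b =>
    intro i
    exact ⟨fun _ => ((atom Ω L G i).2 f a b).1, fun _ => ((atom Ω L G i).2 f a b).2⟩
  | neg a ih =>
    intro i
    refine ⟨fun h => ?_, fun h => ?_⟩
    · exact (ih i).2 h
    · have h2 := (ih i).1 h
      have h3 : (fun e => ((SO.neg a).val (M0 G L) i e)ᶜ) = fun e => a.val (M0 G L) i e := by
        funext e
        exact compl_compl _
      rw [h3]
      exact h2
  | and a b iha ihb =>
    intro i
    refine ⟨fun h => ?_, fun h => ?_⟩
    · simp only [SO.cls, Bool.and_eq_true] at h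
      exact hand _ _ ((iha i).1 h.1) ((ihb i).1 h.2)
    · simp only [SO.cls, Bool.and_eq_true] at h
      have h3 : (fun e => ((SO.and a b).val (M0 G L) i e)ᶜ)
          = fun e => (a.val (M0 G L) i e)ᶜ ⊔ (b.val (M0 G L) i e)ᶜ := by
        funext e
        exact compl_inf
      rw [h3]
      exact hor _ _ ((iha i).2 h.1) ((ihb i).2 h.2)
  | all k a ih =>
    intro i
    refine ⟨fun h => ?_, fun h => ?_⟩
    · exact hall (fun x e => a.val (M0 G L) (Function.update i k x) e)
        (fun x => (ih (Function.update i k x)).1 h)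
    · have h3 : (fun e => ((SO.all k a).val (M0 G L) i e)ᶜ)
          = fun e => ⨆ x, (a.val (M0 G L) (Function.update i k x) e)ᶜ := by
        funext e
        exact compl_iInf
      rw [h3]
      exact hex (fun x e => (a.val (M0 G L) (Function.update i k x) e)ᶜ)
        (fun x => (ih (Function.update i k x)).2 h)
  | allF f a ih =>
    intro i
    refine ⟨fun h => ?_, fun h => ?_⟩
    · simp only [SO.cls, Bool.true_and] at h
      exact hallF (fun e => a.val (M0 G L) i e) f ((ih i).1 h)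
    · simp [SO.cls] at h

end Pool.Agent.Helper97.Ku.PkCLS
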