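import Pool.Agent.Helper97.Ku.GoalsC

/-! Packet GOOD: good triples exist. -/

set_option autoImplicit false

namespace Pool.Agent.Helper97.Ku.PkGOOD

open Set Pool.Agent.Helper97.Ku

/-- Put finitely many collapse coordinates into the support. -/
theorem fill (F : Set Coord) (hF : F.Finite) : ∀ r : Cond, ∃ r', r' ≤ r ∧
    ∀ ξ ν, Coord.col ξ ν ∈ F → 0 < ξ → r'.v (Coord.col ξ ν) ≠ none := by
  induction F, hF using Set.Finite.induction_on with
  | empty =>
    intro r
    exact ⟨r, le_rfl, fun ξ ν h => absurd h (Set.notMem_empty _)⟩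
  | @insert c F _ _ ih =>
    intro r
    obtain ⟨r1, h1, h2⟩ := ih r
    have key : ∃ r', r' ≤ r1 ∧ ∀ ξ ν, Coord.col ξ ν = c → 0 < ξ →
        r'.v (Coord.col ξ ν) ≠ none := by
      cases c with
      | row ξ => exact ⟨r1, le_rfl, fun ξ' ν' h => by cases h⟩
      | col ξ ν =>
        by_cases hv : r1.v (Coord.col ξ ν) = none
        · by_cases hξ : 0 < ξ
          · have hok : Ok r1.S (Coord.col ξ ν) (Val.od 0) := hξ
            refine ⟨upd r1 (Coord.col ξ ν) (Val.od 0) hok, upd_le r1 _ hok hv, ?_⟩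
            intro ξ' ν' h _
            rw [h, upd_v_self]
            simp
          · refine ⟨r1, le_rfl, ?_⟩
            intro ξ' ν' h h'
            cases h
            exact absurd h' hξ
        · refine ⟨r1, le_rfl, ?_⟩
          intro ξ' ν' h _
          rw [h]
          exact hv
    obtain ⟨r', h3, h4⟩ := key
    refine ⟨r', h3.trans h1, ?_⟩
    intro ξ ν h hξ
    rcases Set.mem_insert_iff.1 h with h | h
    · exact h4 ξ ν h hξ
    · exact Cond.supp_mono h3 (h2 ξ ν h hξ)

/-- Removing the collapse coordinates. -/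
theorem drop {I : Type*} (b : I → BA) (D0 F : Set Coord) (hF : F.Finite) (r : Cond)
    (h : Capt b (D0 ∪ F) r) : ∃ r', r' ≤ r ∧
      Capt b (D0 ∪ {c ∈ F | ∃ ξ, c = Coord.row ξ}) r' := by
  obtain ⟨r', h1, h2⟩ := fill F hF r
  refine ⟨r', h1, ?_⟩
  intro i q1 q2 hq1 hq2 he hb
  refine h i q1 q2 (hq1.trans h1) (hq2.trans h1) ?_ hb
  have hg : q1.g = q2.g := by
    have := congrArg Cond.g he
    simpa using this
  have hS : q1.S = q2.S := by
    have := congrArg Cond.S he
    simpa using this
  have hv : ∀ c ∈ D0 ∪ {c ∈ F | ∃ ξ, c = Coord.row ξ}, q1.v c = q2.v c := by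
    intro c hc
    have := congrFun (congrArg Cond.v he) c
    rwa [q1.rs_v_mem hc, q2.rs_v_mem hc] at this
  refine Cond.ext hg hS ?_
  funext c
  by_cases hc : c ∈ D0 ∪ F
  · rw [q1.rs_v_mem hc, q2.rs_v_mem hc]
    by_cases hc' : c ∈ D0 ∪ {c ∈ F | ∃ ξ, c = Coord.row ξ}
    · exact hv c hc'
    · have hcF : c ∈ F := by
        rcases hc with hc | hc
        · exact absurd (Or.inl hc) hc'
        · exact hc
      cases c with
      | row ξ => exact absurd (Or.inr ⟨hcF, ξ, rfl⟩) hc'
      | col ξ ν =>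
        by_cases hξ : 0 < ξ
        · obtain ⟨x, hx⟩ := Option.ne_none_iff_exists'.mp (h2 ξ ν hcF hξ)
          have hok := r'.v_ok _ x hx
          cases x with
          | nd s => exact absurd hok (by simp [Ok])
          | od η =>
            obtain ⟨y1, hy1, hy1'⟩ := hq1.2.2 _ _ hx
            obtain ⟨y2, hy2, hy2'⟩ := hq2.2.2 _ _ hx
            have e1 : y1 = Val.od η := by
              cases y1 with
              | nd s => simp [Val.res] at hy1'
              | od η' => simpa [Val.res] using hy1'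
            have e2 : y2 = Val.od η := by
              cases y2 with
              | nd s => simp [Val.res] at hy2'
              | od η' => simpa [Val.res] using hy2'
            rw [hy1, hy2, e1, e2]
        · have hnone : ∀ q : Cond, q.v (Coord.col ξ ν) = none := by
            intro q
            by_contra hne
            obtain ⟨x, hx⟩ := Option.ne_none_iff_exists'.mp hne
            have hok := q.v_ok _ x hx
            cases x with
            | nd s => exact absurd hok (by simp [Ok])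
            | od η =>
              have h3 : η < ξ := hok
              exact hξ (lt_of_le_of_lt (bot_le (a := η)) h3)
          rw [hnone q1, hnone q2]
  · rw [q1.rs_v_not hc, q2.rs_v_not hc]

theorem good (hINT : G_INT) : G_GOOD := by
  classical
  intro b D0 p hD0 hno hex
  let P : ℕ → Prop := fun n => ∃ q, q ≤ p ∧ ∃ F : Set Coord, F.Finite ∧
    (∀ c ∈ F, ∃ ξ, c = Coord.row ξ) ∧ F.ncard = n ∧ Capt b (D0 ∪ F) q
  have hP : ∃ n, P n := by
    obtain ⟨r, hr, F, hF, hcap⟩ := hex p le_rfl
    obtain ⟨r', hr', hcap'⟩ := drop b D0 F hF r hcap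
    exact ⟨_, r', hr'.trans hr, {c ∈ F | ∃ ξ, c = Coord.row ξ}, hF.subset (fun c hc => hc.1),
      fun c hc => hc.2, rfl, hcap'⟩
  obtain ⟨q, hq, F, hF, hrow, hcard, hcap⟩ := Nat.find_spec hP
  have hmin : ∀ q', q' ≤ p → ∀ F' : Set Coord, F'.Finite → (∀ c ∈ F', ∃ ξ, c = Coord.row ξ) →
      Capt b (D0 ∪ F') q' → F.ncard ≤ F'.ncard := by
    intro q' hq' F' hF' hrow' hcap'
    rw [hcard]
    exact Nat.find_min' hP ⟨q', hq', F', hF', hrow', rfl, hcap'⟩
  have hne : F.Nonempty := by
    by_contra h0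
    rw [Set.not_nonempty_iff_eq_empty] at h0
    rw [h0, Set.union_empty] at hcap
    exact hno q hq hcap
  obtain ⟨c, hc⟩ := hne
  obtain ⟨ξ0, rfl⟩ := hrow c hc
  have hlt : (F \ {Coord.row ξ0}).ncard < F.ncard := Set.ncard_sdiff_singleton_lt_of_mem hc hF
  have hnD : Coord.row ξ0 ∉ D0 := by
    intro hin
    have h1 : D0 ∪ F ⊆ D0 ∪ (F \ {Coord.row ξ0}) := by
      intro c hc
      rcases hc with hc | hc
      · exact Or.inl hc
      · by_cases h2 : c = Coord.row ξ0
        · rw [h2]; exact Or.inl hin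
        · exact Or.inr ⟨hc, h2⟩
    have h2 := hmin q hq (F \ {Coord.row ξ0}) (hF.subset Set.sdiff_subset)
      (fun c hc => hrow c hc.1) (hcap.subset h1)
    omega
  -- put row `ξ0` into the support
  have hsupp : ∃ q1, q1 ≤ q ∧ ∃ s0, q1.v (Coord.row ξ0) = some (Val.nd s0) := by
    by_cases hv : q.v (Coord.row ξ0) = none
    · obtain ⟨s, hs⟩ := q.S_ne
      have hok : Ok q.S (Coord.row ξ0) (Val.nd s) := hs
      exact ⟨upd q (Coord.row ξ0) (Val.nd s) hok, upd_le q _ hok hv, s, upd_v_self q _ _ hok⟩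
    · obtain ⟨x, hx⟩ := Option.ne_none_iff_exists'.mp hv
      have hok := q.v_ok _ x hx
      cases x with
      | nd s => exact ⟨q, le_rfl, s, hx⟩
      | od η => exact absurd hok (by simp [Ok])
  obtain ⟨q1, hq1, s0, hs0⟩ := hsupp
  refine ⟨q1, hq1.trans hq,
    D0 ∪ (F \ {Coord.row ξ0}) ∪ (q1.supp \ {Coord.row ξ0}), ξ0, s0, ?_, ?_, ?_⟩
  · intro c hc
    exact Or.inl (Or.inl hc)
  · have h1 : (F \ {Coord.row ξ0}).Countable := (hF.subset Set.sdiff_subset).countable
    have h2 : (q1.supp \ {Coord.row ξ0}).Countable := q1.supp_countable.mono Set.sdiff_subset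
    have h3 : Countable ↥(F \ {Coord.row ξ0}) := h1.to_subtype
    have h4 : Countable ↥(q1.supp \ {Coord.row ξ0}) := h2.to_subtype
    have h5 : Small.{0} ↥(F \ {Coord.row ξ0}) := Countable.toSmall _
    have h6 : Small.{0} ↥(q1.supp \ {Coord.row ξ0}) := Countable.toSmall _
    have h7 : Small.{0} ↥(D0 ∪ (F \ {Coord.row ξ0})) := small_union _ _
    exact small_union _ _
  · refine ⟨?_, ?_, hs0, ?_, ?_⟩
    · rintro ((h | h) | h)
      · exact hnD h
      · exact h.2 rfl
      · exact h.2 rfl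
    · intro c hc
      by_cases h2 : c = Coord.row ξ0
      · exact Set.mem_insert_iff.2 (Or.inl h2)
      · exact Set.mem_insert_of_mem _ (Or.inr ⟨hc, h2⟩)
    · refine (hcap.mono hq1).subset ?_
      intro c hc
      rcases hc with hc | hc
      · exact Set.mem_insert_of_mem _ (Or.inl (Or.inl hc))
      · by_cases h2 : c = Coord.row ξ0
        · exact Set.mem_insert_iff.2 (Or.inl h2)
        · exact Set.mem_insert_of_mem _ (Or.inl (Or.inr ⟨hc, h2⟩))
    · intro q' hq' hcap'
      have h1 := hINT Om b _ _ q' hcap' (hcap.mono (hq'.trans hq1))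
      have h2 : (D0 ∪ (F \ {Coord.row ξ0}) ∪ (q1.supp \ {Coord.row ξ0})) ∩ (D0 ∪ F)
          ⊆ D0 ∪ (F \ {Coord.row ξ0}) := by
        rintro c ⟨hc1, hc2⟩
        rcases hc2 with hc2 | hc2
        · exact Or.inl hc2
        · rcases hc1 with hc1 | hc1
          · exact hc1
          · exact Or.inr ⟨hc2, hc1.2⟩
      have h3 := hmin q' ((hq'.trans hq1).trans hq) (F \ {Coord.row ξ0})
        (hF.subset Set.sdiff_subset) (fun c hc => hrow c hc.1) (h1.subset h2)
      omega

end Pool.Agent.Helper97.Ku.PkGOOD
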